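import Mathlib
import Pool.Agent.Helper63.Down.Main

namespace Pool.Agent.Results.MP_dd7d0c_lc.PolyTime

open Pool.Agent.Helper63.Down

/-- Finite down-posets are recognised by one random access machine program running in polynomial
time. -/
theorem result : ∃ (prog : Cmd) (p : Polynomial ℕ), ∀ (n : ℕ) (r : Fin n → Fin n → Bool),
    IsPartialOrder (Fin n) (fun i j => r i j = true) →
    (run prog (input n r)).2 ≤ p.eval n ∧
    (((run prog (input n r)).1.reg 1 = 1 ∧ IsDownPoset (fun i j => r i j = true)) ∨
      ((run prog (input n r)).1.reg 1 = 0 ∧ ¬ IsDownPoset (fun i j => r i j = true))) := main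

end Pool.Agent.Results.MP_dd7d0c_lc.PolyTime
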